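import Pool.Agent.Q81.IM.Stm

/-!
# Project IM, job PO
-/

set_option autoImplicit false

open Complex Metric Set MeasureTheory

namespace Pool.Agent.Q162.IM

open Pool.Agent.Q81.IM

theorem norm_cp {r : ℝ} (hr : 0 < r) (t : ℝ) : ‖cp r t‖ = r := by
  rw [cp, norm_mul, Complex.norm_exp_ofReal_mul_I, mul_one, Complex.norm_real,
    Real.norm_of_nonneg hr.le]

theorem continuous_cp (r : ℝ) : Continuous (cp r) := by unfold cp; fun_prop

theorem cp_mem {r : ℝ} (hr : 0 < r) (hr1 : r < 1) (t : ℝ) : cp r t ∈ ball (0 : ℂ) 1 := by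
  rw [mem_ball_zero_iff, norm_cp hr]; exact hr1

/-- The mean value property. -/
theorem integral_cp {h : ℂ → ℂ} {r : ℝ} (hh : DifferentiableOn ℂ h (ball 0 1)) (h0 : h 0 = 0)
    (hr : 0 < r) (hr1 : r < 1) : ∫ t in (0 : ℝ)..(2 * Real.pi), h (cp r t) = 0 := by
  have h1 : DiffContOnCl ℂ h (ball 0 |r|) := by
    rw [abs_of_pos hr]
    refine DifferentiableOn.diffContOnCl ?_
    rw [closure_ball (0 : ℂ) hr.ne']
    exact hh.mono (closedBall_subset_ball hr1)
  have h2 := h1.circleAverage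
  rw [Real.circleAverage_def, h0] at h2
  have h3 : (2 * Real.pi)⁻¹ ≠ 0 := by positivity
  have h4 := (smul_eq_zero.1 h2).resolve_left h3
  rw [← h4]
  apply intervalIntegral.integral_congr
  intro t _
  simp [cp, circleMap]

/-- Adding a constant. -/
theorem integral_add_const {h : ℂ → ℂ} {r : ℝ} (hh : DifferentiableOn ℂ h (ball 0 1)) (h0 : h 0 = 0)
    (hr : 0 < r) (hr1 : r < 1) (a : ℂ) :
    ∫ t in (0 : ℝ)..(2 * Real.pi), ‖h (cp r t) + a‖ ^ 2 =
      (∫ t in (0 : ℝ)..(2 * Real.pi), ‖h (cp r t)‖ ^ 2) + 2 * Real.pi * ‖a‖ ^ 2 := by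
  have hc : Continuous fun t => h (cp r t) :=
    hh.continuousOn.comp_continuous (continuous_cp r) (cp_mem hr hr1)
  have e1 : ∀ t : ℝ, ‖h (cp r t) + a‖ ^ 2 =
      ‖h (cp r t)‖ ^ 2 + ‖a‖ ^ 2 + 2 * ((starRingEnd ℂ a) * h (cp r t)).re := by
    intro t
    rw [← Complex.normSq_eq_norm_sq, ← Complex.normSq_eq_norm_sq, ← Complex.normSq_eq_norm_sq,
      Complex.normSq_add]
    congr 2
    rw [mul_comm]
  have i1 : IntervalIntegrable (fun t => ‖h (cp r t)‖ ^ 2) volume 0 (2 * Real.pi) :=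
    (hc.norm.pow 2).intervalIntegrable _ _
  have i2 : IntervalIntegrable (fun _ : ℝ => ‖a‖ ^ 2) volume 0 (2 * Real.pi) :=
    continuous_const.intervalIntegrable _ _
  have hc3 : Continuous fun t => (starRingEnd ℂ a) * h (cp r t) := continuous_const.mul hc
  have i3 : IntervalIntegrable (fun t => 2 * ((starRingEnd ℂ a) * h (cp r t)).re) volume 0
      (2 * Real.pi) :=
    (continuous_const.mul (Complex.continuous_re.comp hc3)).intervalIntegrable _ _
  have e2 : ∫ t in (0 : ℝ)..(2 * Real.pi), ((starRingEnd ℂ a) * h (cp r t)).re = 0 := by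
    have h1 : ∫ t in (0 : ℝ)..(2 * Real.pi), (starRingEnd ℂ a) * h (cp r t) = 0 := by
      rw [intervalIntegral.integral_const_mul, integral_cp hh h0 hr hr1, mul_zero]
    have i4 : IntervalIntegrable (fun t => (starRingEnd ℂ a) * h (cp r t)) volume 0
        (2 * Real.pi) := hc3.intervalIntegrable _ _
    have h2 := Complex.reCLM.intervalIntegral_comp_comm i4
    rw [h1] at h2
    simpa using h2
  rw [intervalIntegral.integral_congr (g := fun t => ‖h (cp r t)‖ ^ 2 + ‖a‖ ^ 2 +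
    2 * ((starRingEnd ℂ a) * h (cp r t)).re) (fun t _ => e1 t)]
  rw [intervalIntegral.integral_add (i1.add i2) i3, intervalIntegral.integral_add i1 i2,
    intervalIntegral.integral_const_mul, e2, intervalIntegral.integral_const]
  simp

/-- Job PO. -/
theorem po : S_PO := by
  intro P φ r hφ hr hr1
  have hφn : ∀ t, ‖φ (cp r t)‖ ≤ r := by
    intro t
    have h1 : ‖φ (cp r t)‖ ≤ ‖cp r t‖ :=
      Complex.norm_le_norm_of_mapsTo_ball hφ.diff (hφ.maps.mono_right ball_subset_closedBall)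
        hφ.zero (by rw [norm_cp hr]; linarith)
    rwa [norm_cp hr] at h1
  have hφc : Continuous fun t => φ (cp r t) :=
    hφ.diff.continuousOn.comp_continuous (continuous_cp r) (cp_mem hr hr1)
  have h2π : (0 : ℝ) ≤ 2 * Real.pi := by positivity
  refine Polynomial.recOnHorner (M := fun P : Polynomial ℂ =>
    ∫ t in (0 : ℝ)..(2 * Real.pi), ‖P.eval (φ (cp r t))‖ ^ 2 ≤
      ∫ t in (0 : ℝ)..(2 * Real.pi), ‖P.eval (cp r t)‖ ^ 2) P ?_ ?_ ?_
  · simp
  · intro p a hp _ ih
    have hp0 : p.eval 0 = 0 := by rw [← Polynomial.coeff_zero_eq_eval_zero]; exact hp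
    have d1 : DifferentiableOn ℂ (fun z => p.eval (φ z)) (ball 0 1) :=
      p.differentiable.comp_differentiableOn hφ.diff
    have d2 : DifferentiableOn ℂ (fun z => p.eval z) (ball 0 1) := p.differentiable.differentiableOn
    have g1 := integral_add_const d1 (by simp only [hφ.zero, hp0]) hr hr1 a
    have g2 := integral_add_const d2 hp0 hr hr1 a
    simp only [Polynomial.eval_add, Polynomial.eval_C]
    rw [g1, g2]
    linarith
  · intro p _ ih
    have c1 : Continuous fun t => p.eval (φ (cp r t)) := p.continuous.comp hφc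
    have c2 : Continuous fun t => p.eval (cp r t) := p.continuous.comp (continuous_cp r)
    simp only [Polynomial.eval_mul, Polynomial.eval_X, norm_mul, mul_pow]
    calc ∫ t in (0 : ℝ)..(2 * Real.pi), ‖p.eval (φ (cp r t))‖ ^ 2 * ‖φ (cp r t)‖ ^ 2
        ≤ ∫ t in (0 : ℝ)..(2 * Real.pi), ‖p.eval (φ (cp r t))‖ ^ 2 * r ^ 2 := by
          apply intervalIntegral.integral_mono h2π
          · exact ((c1.norm.pow 2).mul (hφc.norm.pow 2)).intervalIntegrable _ _
          · exact ((c1.norm.pow 2).mul continuous_const).intervalIntegrable _ _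
          · intro t
            exact mul_le_mul_of_nonneg_left
              (pow_le_pow_left₀ (norm_nonneg _) (hφn t) 2) (sq_nonneg _)
      _ = (∫ t in (0 : ℝ)..(2 * Real.pi), ‖p.eval (φ (cp r t))‖ ^ 2) * r ^ 2 :=
          intervalIntegral.integral_mul_const _ _
      _ ≤ (∫ t in (0 : ℝ)..(2 * Real.pi), ‖p.eval (cp r t)‖ ^ 2) * r ^ 2 :=
          mul_le_mul_of_nonneg_right ih (sq_nonneg _)
      _ = ∫ t in (0 : ℝ)..(2 * Real.pi), ‖p.eval (cp r t)‖ ^ 2 * r ^ 2 :=
          (intervalIntegral.integral_mul_const _ _).symm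
      _ = ∫ t in (0 : ℝ)..(2 * Real.pi), ‖p.eval (cp r t)‖ ^ 2 * ‖cp r t‖ ^ 2 := by
          simp only [norm_cp hr]

end Pool.Agent.Q162.IM
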