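import Pool.Agent.Q81.IM.Stm

/-!
# Project IM, job ZF
-/

set_option autoImplicit false

open Complex Metric Set MeasureTheory

namespace Pool.Agent.Q162.IM

open Pool.Agent.Q81.IM

/-- A zero-free analytic function on a disc is an exponential. -/
theorem exists_log {g : ℂ → ℂ} {r : ℝ} (hr : 0 < r)
    (hg : DifferentiableOn ℂ g (ball 0 r)) (h0 : ∀ z ∈ ball (0 : ℂ) r, g z ≠ 0) :
    ∃ ℓ : ℂ → ℂ, DifferentiableOn ℂ ℓ (ball 0 r) ∧
      ∀ z ∈ ball (0 : ℂ) r, Complex.exp (ℓ z) = g z := by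
  have hcm : (0 : ℂ) ∈ ball (0 : ℂ) r := mem_ball_self hr
  have hl₀ : Complex.exp (Complex.log (g 0)) = g 0 := Complex.exp_log (h0 0 hcm)
  generalize Complex.log (g 0) = l₀ at hl₀
  have hd : DifferentiableOn ℂ (fun z => deriv g z / g z) (ball 0 r) :=
    (hg.deriv isOpen_ball).div hg h0
  obtain ⟨Φ, hΦ⟩ := hd.isExactOn_ball
  have hℓ : ∀ z ∈ ball (0 : ℂ) r, HasDerivAt (fun z => Φ z - Φ 0 + l₀) (deriv g z / g z) z := by
    intro z hz
    exact ((hΦ z hz).sub_const _).add_const _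
  refine ⟨fun z => Φ z - Φ 0 + l₀, ?_, ?_⟩
  · intro z hz
    exact (hℓ z hz).differentiableAt.differentiableWithinAt
  · intro z hz
    have hgd : ∀ z ∈ ball (0 : ℂ) r, HasDerivAt g (deriv g z) z := by
      intro z hz
      exact (hg.differentiableAt (isOpen_ball.mem_nhds hz)).hasDerivAt
    have hh : ∀ z ∈ ball (0 : ℂ) r,
        HasDerivAt (fun z => g z * Complex.exp (-(Φ z - Φ 0 + l₀))) 0 z := by
      intro z hz
      have h1 := (hgd z hz).mul ((hℓ z hz).neg.cexp)
      have h2 : deriv g z * Complex.exp (-(Φ z - Φ 0 + l₀))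
          + g z * (Complex.exp (-(Φ z - Φ 0 + l₀)) * -(deriv g z / g z)) = 0 := by
        have := h0 z hz
        field_simp
        ring
      exact h1.congr_deriv h2
    have hconst := isOpen_ball.is_const_of_deriv_eq_zero (convex_ball (0 : ℂ) r).isPreconnected
      (fun z hz => (hh z hz).differentiableAt.differentiableWithinAt)
      (fun z hz => (hh z hz).deriv) hz hcm
    simp only [sub_self, zero_add] at hconst
    rw [← hl₀, ← Complex.exp_add, add_neg_cancel, Complex.exp_zero] at hconst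
    have h3 : g z = g z * Complex.exp (-(Φ z - Φ 0 + l₀)) * Complex.exp (Φ z - Φ 0 + l₀) := by
      rw [mul_assoc, ← Complex.exp_add, neg_add_cancel, Complex.exp_zero, mul_one]
    rw [hconst, one_mul] at h3
    exact h3.symm

/-- Young's inequality. -/
theorem young {p x : ℝ} (hp : 0 < p) (hp2 : p ≤ 2) (hx : 0 ≤ x) :
    x ^ p ≤ p / 2 * x ^ 2 + (1 - p / 2) := by
  have h := Real.geom_mean_le_arith_mean2_weighted (w₁ := p / 2) (w₂ := 1 - p / 2)
    (p₁ := x ^ 2) (p₂ := 1) (by positivity) (by linarith) (by positivity) zero_le_one (by ring)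
  rw [Real.one_rpow, mul_one, mul_one] at h
  refine le_trans (le_of_eq ?_) h
  rw [← Real.rpow_natCast x 2, ← Real.rpow_mul hx]
  congr 1
  push_cast
  ring

/-- Job ZF. -/
theorem zf (hAP : S_AP) : S_ZF := by
  intro H φ p r R hφ hp hp2 hr hr2 hrR hH hH0
  have hR : 0 < R := hr.trans hrR
  obtain ⟨L, hL, hexp⟩ := exists_log hR hH hH0
  set G : ℂ → ℂ := fun z => Complex.exp ((p / 2 : ℝ) * L z) with hG
  have hGd : DifferentiableOn ℂ G (ball 0 R) := (hL.const_mul _).cexp
  have hGH : ∀ z ∈ ball (0 : ℂ) R, ‖G z‖ ^ 2 = ‖H z‖ ^ p := by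
    intro z hz
    rw [← hexp z hz, hG]
    simp only [Complex.norm_exp, Complex.re_ofReal_mul]
    rw [← Real.exp_mul, ← Real.exp_nat_mul]
    congr 1
    push_cast
    ring
  obtain ⟨hA, hB⟩ := hAP G φ r R hφ hr hr2 hrR hGd
  have hcn : ∀ t, ‖cp r t‖ = r := by
    intro t
    rw [cp, norm_mul, Complex.norm_exp_ofReal_mul_I, mul_one, Complex.norm_real,
      Real.norm_of_nonneg hr.le]
  have hcc : Continuous (cp r) := by unfold cp; fun_prop
  have hc1 : ∀ t, cp r t ∈ ball (0 : ℂ) 1 := by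
    intro t; rw [mem_ball_zero_iff, hcn]; linarith
  have hcR : ∀ t, cp r t ∈ ball (0 : ℂ) R := by
    intro t; rw [mem_ball_zero_iff, hcn]; exact hrR
  have hφn : ∀ t, φ (cp r t) ∈ ball (0 : ℂ) R := by
    intro t
    rw [mem_ball_zero_iff]
    have h1 : ‖φ (cp r t)‖ ≤ ‖cp r t‖ :=
      Complex.norm_le_norm_of_mapsTo_ball hφ.diff (hφ.maps.mono_right ball_subset_closedBall)
        hφ.zero (by rw [hcn]; linarith)
    rw [hcn] at h1
    linarith
  have c1 : Continuous fun t => φ (cp r t) := hφ.diff.continuousOn.comp_continuous hcc hc1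
  have c2 : Continuous fun t => deriv φ (cp r t) :=
    (hφ.diff.deriv isOpen_ball).continuousOn.comp_continuous hcc hc1
  have c3 : Continuous fun t => H (φ (cp r t)) := hH.continuousOn.comp_continuous c1 hφn
  have c4 : Continuous fun t => G (φ (cp r t)) := hGd.continuousOn.comp_continuous c1 hφn
  have hpt : ∀ t, ‖H (φ (cp r t)) * deriv φ (cp r t)‖ ^ p ≤
      p / 2 * ‖G (φ (cp r t)) * deriv φ (cp r t)‖ ^ 2 +
        (1 - p / 2) * ‖G (φ (cp r t))‖ ^ 2 := by
    intro t
    have h1 : ‖H (φ (cp r t)) * deriv φ (cp r t)‖ ^ p =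
        ‖G (φ (cp r t))‖ ^ 2 * ‖deriv φ (cp r t)‖ ^ p := by
      rw [norm_mul, Real.mul_rpow (norm_nonneg _) (norm_nonneg _), hGH _ (hφn t)]
    have h2 := young hp hp2 (norm_nonneg (deriv φ (cp r t)))
    rw [h1, norm_mul, mul_pow]
    have h3 := mul_le_mul_of_nonneg_left h2 (sq_nonneg ‖G (φ (cp r t))‖)
    linarith
  have i1 : IntervalIntegrable (fun t => ‖H (φ (cp r t)) * deriv φ (cp r t)‖ ^ p) volume 0
      (2 * Real.pi) := by
    apply Continuous.intervalIntegrable
    exact (c3.mul c2).norm.rpow_const fun t => Or.inr hp.le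
  have i2 : IntervalIntegrable (fun t => p / 2 * ‖G (φ (cp r t)) * deriv φ (cp r t)‖ ^ 2) volume 0
      (2 * Real.pi) := by
    apply Continuous.intervalIntegrable
    exact continuous_const.mul ((c4.mul c2).norm.pow 2)
  have i3 : IntervalIntegrable (fun t => (1 - p / 2) * ‖G (φ (cp r t))‖ ^ 2) volume 0
      (2 * Real.pi) := by
    apply Continuous.intervalIntegrable
    exact continuous_const.mul (c4.norm.pow 2)
  have h2π : (0 : ℝ) ≤ 2 * Real.pi := by positivity
  have hmono := intervalIntegral.integral_mono h2π i1 (i2.add i3) hpt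
  rw [intervalIntegral.integral_add i2 i3, intervalIntegral.integral_const_mul,
    intervalIntegral.integral_const_mul] at hmono
  have hfin : ∫ t in (0 : ℝ)..(2 * Real.pi), ‖H (cp r t)‖ ^ p =
      ∫ t in (0 : ℝ)..(2 * Real.pi), ‖G (cp r t)‖ ^ 2 := by
    apply intervalIntegral.integral_congr
    intro t _
    exact (hGH _ (hcR t)).symm
  rw [hfin]
  have h4 := mul_le_mul_of_nonneg_left hB (by positivity : (0 : ℝ) ≤ p / 2)
  have h5 := mul_le_mul_of_nonneg_left hA (by linarith : (0 : ℝ) ≤ 1 - p / 2)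
  linarith

end Pool.Agent.Q162.IM
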